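import Pool.Agent.W500.CS.Stm2

/-! Project CQ, part GOODL: only the bounded branches occur near the centre. -/

set_option autoImplicit false

open MeasureTheory Polynomial Metric Set Filter Topology
open scoped ComplexConjugate

namespace Pool.Agent.W753.CQ.GOODL

open Pool.Agent.W500.CS

/-- good index -/
def Good (K : ℕ) (f : ℂ → ℂ) : Prop := ∃ M : ℝ, ∀ᶠ w in 𝓝[≠] (0 : ℂ), ‖f w / w ^ K‖ ≤ M

theorem small_ev {ρ : ℝ} (hρ : 0 < ρ) : ∀ᶠ z in 𝓝[≠] (0 : ℂ), ‖z‖ < ρ := by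
  have h : ∀ᶠ z in 𝓝 (0 : ℂ), ‖z‖ < ρ := by
    filter_upwards [ball_mem_nhds (0 : ℂ) hρ] with z hz
    simpa using hz
  exact h.filter_mono nhdsWithin_le_nhds

theorem bad_lower (R : ℝ) (hR : 0 < R) (K : ℕ) (f : ℂ → ℂ)
    (hf : DifferentiableOn ℂ f (ball 0 R)) (hbad : ¬ Good K f) :
    ∃ c > 0, ∀ᶠ s in 𝓝[≠] (0 : ℂ), c ≤ ‖s * (f s / s ^ K)‖ := by
  have han : AnalyticAt ℂ f 0 := hf.analyticAt (isOpen_ball.mem_nhds (mem_ball_self hR))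
  by_cases h0 : ∀ᶠ z in 𝓝 (0 : ℂ), f z = 0
  · exfalso
    apply hbad
    refine ⟨0, ?_⟩
    filter_upwards [h0.filter_mono nhdsWithin_le_nhds] with z hz
    simp [hz]
  · obtain ⟨m, g, hg, hg0, hfg⟩ := han.exists_eventuallyEq_pow_smul_nonzero_iff.2 h0
    have hgc : Tendsto (fun z => ‖g z‖) (𝓝[≠] 0) (𝓝 ‖g 0‖) :=
      (hg.continuousAt.norm).tendsto.mono_left nhdsWithin_le_nhds
    have hg0' : 0 < ‖g 0‖ := norm_pos_iff.2 hg0
    have hfg' := hfg.filter_mono (nhdsWithin_le_nhds (s := {0}ᶜ))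
    rcases le_or_gt K m with hm | hm
    · exfalso
      apply hbad
      refine ⟨‖g 0‖ + 1, ?_⟩
      filter_upwards [hfg', hgc.eventually (gt_mem_nhds (lt_add_one _)), self_mem_nhdsWithin,
        small_ev one_pos] with z hz h1 hz0 hz1
      have hz0' : z ≠ 0 := hz0
      have hzn : 0 < ‖z‖ := norm_pos_iff.2 hz0'
      rw [hz, sub_zero, smul_eq_mul, norm_div, norm_mul, norm_pow, norm_pow]
      rw [div_le_iff₀ (pow_pos hzn K)]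
      have h2 : ‖z‖ ^ m ≤ ‖z‖ ^ K := pow_le_pow_of_le_one hzn.le hz1.le hm
      calc ‖z‖ ^ m * ‖g z‖ ≤ ‖z‖ ^ K * (‖g 0‖ + 1) :=
            mul_le_mul h2 h1.le (norm_nonneg _) (by positivity)
        _ = (‖g 0‖ + 1) * ‖z‖ ^ K := mul_comm _ _
    · refine ⟨‖g 0‖ / 2, half_pos hg0', ?_⟩
      filter_upwards [hfg', hgc.eventually (lt_mem_nhds (half_lt_self hg0')), self_mem_nhdsWithin,
        small_ev one_pos] with z hz h1 hz0 hz1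
      have hz0' : z ≠ 0 := hz0
      have hzn : 0 < ‖z‖ := norm_pos_iff.2 hz0'
      rw [hz, sub_zero, smul_eq_mul, norm_mul, norm_div, norm_mul, norm_pow, norm_pow]
      rw [mul_div_assoc', le_div_iff₀ (pow_pos hzn K)]
      have h2 : ‖z‖ ^ K ≤ ‖z‖ ^ (m + 1) := pow_le_pow_of_le_one hzn.le hz1.le hm
      calc ‖g 0‖ / 2 * ‖z‖ ^ K ≤ ‖g z‖ * ‖z‖ ^ (m + 1) :=
            mul_le_mul h1.le h2 (by positivity) (by positivity)
        _ = ‖z‖ * (‖z‖ ^ m * ‖g z‖) := by ring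

theorem gr_inj {w w' : ℂ} (h : gr w = gr w') : w = w' := by
  have h1 : (w * 1).re = (w' * 1).re := by
    rw [← gr_apply, ← gr_apply, h]
  have h2 : (w * Complex.I).re = (w' * Complex.I).re := by
    rw [← gr_apply, ← gr_apply, h]
  rw [mul_one, mul_one] at h1
  rw [Complex.mul_I_re, Complex.mul_I_re] at h2
  exact Complex.ext h1 (by linarith)

theorem norm_Am (θ x : ℝ) : ‖Am θ x‖ = |x| := by
  unfold Am
  rw [norm_mul, Complex.norm_real, Real.norm_eq_abs, Complex.norm_exp]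
  simp

theorem norm_Gm (κ φ₀ q φ : ℝ) : ‖Gm κ φ₀ q φ‖ = |q| * Real.exp (κ * (φ - φ₀)) := by
  unfold Gm
  rw [norm_mul, Complex.norm_real, Real.norm_eq_abs, Complex.norm_exp]
  congr 2
  simp

theorem exists_of_ae {P : ℝ → Prop} (h : ∀ᵐ θ : ℝ, P θ) {a b : ℝ} (hab : a < b) :
    ∃ θ ∈ Ioo a b, P θ := by
  by_contra hcon
  push Not at hcon
  have h1 : volume (Ioo a b) = 0 := measure_mono_null (fun x hx => hcon x hx) (ae_iff.1 h)
  rw [Real.volume_Ioo] at h1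
  simp at h1
  linarith

theorem step1 (h2 : S_RAYIDX) (h3 : S_FATOU) (h4 : S_AEAM)
    (r : ℕ) (R : ℝ) (K : ℕ) (U : ℂ → ℝ) (b : Fin r → ℂ → ℂ) (G : ℂ → ℂ) (hR : 0 < R)
    (hb : ∀ i, DifferentiableOn ℂ (b i) (ball 0 R))
    (hD : Dat (ball 0 R \ {0}) U (fun i s => b i s / s ^ K)) (hG : Measurable G)
    (hUG : ∀ᵐ s : ℂ, s ∈ ball (0 : ℂ) R \ {0} → HasFDerivAt U (gr (G s)) s)
    (hT : Tendsto (fun ρ : ℝ => (∫⁻ s in {s : ℂ | ρ < ‖s‖ ∧ ‖s‖ < 2 * ρ}, ‖G s‖ₑ) /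
      ENNReal.ofReal ρ) (𝓝[>] 0) (𝓝 0)) :
    ∀ᵐ θ : ℝ, ∃ i, Good K (b i) ∧ ∃ ε : ℝ, 0 < ε ∧ ∀ x : ℝ, x ∈ Ioo 0 ε →
      Am θ x ∈ ball (0 : ℂ) R \ {0} ∧
      HasFDerivAt U (gr (b i (Am θ x) / Am θ x ^ K)) (Am θ x) := by
  have hex : ∀ i : Fin r, ∃ c : ℝ, 0 < c ∧ (¬ Good K (b i) →
      ∀ᶠ s in 𝓝[≠] (0 : ℂ), c ≤ ‖s * (b i s / s ^ K)‖) := by
    intro i
    by_cases h : Good K (b i)
    · exact ⟨1, one_pos, fun h' => absurd h h'⟩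
    · obtain ⟨c, hc, hcs⟩ := bad_lower R hR K (b i) (hb i) h
      exact ⟨c, hc, fun _ => hcs⟩
  choose c hc hcs using hex
  have hbad : ∀ i : Fin r, ∀ᵐ θ : ℝ, ¬ ∃ ε : ℝ, 0 < ε ∧
      ∀ᵐ x : ℝ, x ∈ Ioo 0 ε → c i ≤ ‖Am θ x * G (Am θ x)‖ :=
    fun i => h3 G (c i) hG (hc i) hT
  have hbad' := (ae_all_iff (ι := Fin r)).2 hbad
  filter_upwards [h2 r R K U b hR hb hD, h4 _ hUG, hbad'] with θ hθ1 hθ2 hθ3
  obtain ⟨i, ε, hε, hi⟩ := hθ1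
  refine ⟨i, ?_, ε, hε, hi⟩
  by_contra hg
  have hi3 := hθ3 i
  have hcs' := hcs i hg
  apply hi3
  rw [eventually_nhdsWithin_iff, Metric.eventually_nhds_iff] at hcs'
  obtain ⟨ε', hε', hcs'⟩ := hcs'
  refine ⟨min ε ε', lt_min hε hε', ?_⟩
  filter_upwards [hθ2] with x hx hx2
  have hx0 : 0 < x := hx2.1
  have hxε : x < ε := hx2.2.trans_le (min_le_left _ _)
  have hxε' : x < ε' := hx2.2.trans_le (min_le_right _ _)
  obtain ⟨hm, hd⟩ := hi x ⟨hx0, hxε⟩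
  have hd2 := hx hx0 hm
  have he := gr_inj (hd2.unique hd)
  rw [he]
  refine hcs' ?_ hm.2
  rw [dist_zero_right, norm_Am, abs_of_pos hx0]
  exact hxε'

theorem meet (κ φ₀ θ η ε₁ : ℝ) (hη : 0 < η) (hε : 0 < ε₁) : ∀ᶠ q in 𝓝[>] (0 : ℝ),
    ∃ φ ∈ Ioo θ (θ + η), ∃ x ∈ Ioo 0 ε₁, Gm κ φ₀ q φ = Am θ x := by
  set C : ℝ := Real.exp (|κ| * (|θ - φ₀| + η)) with hC
  have hCpos : 0 < C := Real.exp_pos _
  have hbd : ∀ φ ∈ Icc θ (θ + η), Real.exp (κ * (φ - φ₀)) ≤ C := by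
    intro φ hφ
    rw [hC, Real.exp_le_exp]
    have h1 : |φ - φ₀| ≤ |θ - φ₀| + η := by
      have : φ - φ₀ = (θ - φ₀) + (φ - θ) := by ring
      rw [this]
      refine (abs_add_le _ _).trans ?_
      have h2 : |φ - θ| ≤ η := by
        rw [abs_of_nonneg (by linarith [hφ.1])]
        linarith [hφ.2]
      linarith
    calc κ * (φ - φ₀) ≤ |κ * (φ - φ₀)| := le_abs_self _
      _ = |κ| * |φ - φ₀| := abs_mul _ _
      _ ≤ |κ| * (|θ - φ₀| + η) := mul_le_mul_of_nonneg_left h1 (abs_nonneg _)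
  have hpos : 0 < min η ε₁ / C := div_pos (lt_min hη hε) hCpos
  filter_upwards [Ioo_mem_nhdsGT hpos] with q hq
  have hq0 : 0 < q := hq.1
  have hqC : q * C < min η ε₁ := by
    have := hq.2
    rwa [lt_div_iff₀ hCpos] at this
  set h : ℝ → ℝ := fun φ => φ - q * Real.exp (κ * (φ - φ₀)) - θ with hh
  have hcont : Continuous h := by
    rw [hh]
    fun_prop
  have hlo : h θ < 0 := by
    rw [hh]
    simp only
    have := mul_pos hq0 (Real.exp_pos (κ * (θ - φ₀)))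
    linarith
  have hhi : 0 < h (θ + η) := by
    rw [hh]
    simp only
    have h1 := hbd (θ + η) ⟨by linarith, le_rfl⟩
    have h2 : q * Real.exp (κ * (θ + η - φ₀)) ≤ q * C := mul_le_mul_of_nonneg_left h1 hq0.le
    have h3 : min η ε₁ ≤ η := min_le_left _ _
    linarith
  obtain ⟨φ, hφ, hφ0⟩ := intermediate_value_Ioo (by linarith : θ ≤ θ + η) hcont.continuousOn
    ⟨hlo, hhi⟩
  refine ⟨φ, hφ, q * Real.exp (κ * (φ - φ₀)), ⟨mul_pos hq0 (Real.exp_pos _), ?_⟩, ?_⟩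
  · have h1 := hbd φ ⟨hφ.1.le, hφ.2.le⟩
    have h2 : q * Real.exp (κ * (φ - φ₀)) ≤ q * C := mul_le_mul_of_nonneg_left h1 hq0.le
    have h3 : min η ε₁ ≤ ε₁ := min_le_right _ _
    linarith
  · have h4 : φ = θ + q * Real.exp (κ * (φ - φ₀)) := by
      have : h φ = 0 := hφ0
      rw [hh] at this
      simp only at this
      linarith
    unfold Gm Am
    rw [Complex.exp_add]
    have h5 : (θ : ℂ) + ((q * Real.exp (κ * (φ - φ₀)) : ℝ) : ℂ) = (φ : ℂ) := by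
      rw [← Complex.ofReal_add, ← h4]
    rw [h5]
    push_cast
    ring

theorem good_small (K : ℕ) (f : ℂ → ℂ) (hf : Good K f) (κ φ₀ δ : ℝ) (c : ℝ) (hc : 0 < c) :
    ∀ᶠ q in 𝓝[>] (0 : ℝ), ∀ φ ∈ Icc (φ₀ - δ) (φ₀ + δ),
      |(f (Gm κ φ₀ q φ) / Gm κ φ₀ q φ ^ K * ((κ + Complex.I) * Gm κ φ₀ q φ)).re| < c := by
  obtain ⟨M, hM⟩ := hf
  rw [eventually_nhdsWithin_iff, Metric.eventually_nhds_iff] at hM
  obtain ⟨ρ, hρ, hM⟩ := hM
  set C : ℝ := Real.exp (|κ| * |δ|) with hC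
  have hCpos : 0 < C := Real.exp_pos _
  set D : ℝ := (|M| + 1) * (‖(κ : ℂ) + Complex.I‖ + 1) with hD
  have hDpos : 0 < D := by positivity
  have hpos : 0 < min (ρ / C) (c / (D * C)) := lt_min (by positivity) (by positivity)
  filter_upwards [Ioo_mem_nhdsGT hpos] with q hq φ hφ
  have hq0 : 0 < q := hq.1
  have h1 : q * C < ρ := by
    have := hq.2.trans_le (min_le_left _ _)
    rwa [lt_div_iff₀ hCpos] at this
  have h2 : q * (D * C) < c := by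
    have := hq.2.trans_le (min_le_right _ _)
    rwa [lt_div_iff₀ (by positivity)] at this
  have h3 : Real.exp (κ * (φ - φ₀)) ≤ C := by
    rw [hC, Real.exp_le_exp]
    have h4 : |φ - φ₀| ≤ |δ| := by
      rw [abs_le]
      constructor
      · linarith [hφ.1, le_abs_self δ]
      · linarith [hφ.2, le_abs_self δ]
    calc κ * (φ - φ₀) ≤ |κ * (φ - φ₀)| := le_abs_self _
      _ = |κ| * |φ - φ₀| := abs_mul _ _
      _ ≤ |κ| * |δ| := mul_le_mul_of_nonneg_left h4 (abs_nonneg _)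
  have hn : ‖Gm κ φ₀ q φ‖ ≤ q * C := by
    rw [norm_Gm, abs_of_pos hq0]
    exact mul_le_mul_of_nonneg_left h3 hq0.le
  have hnpos : 0 < ‖Gm κ φ₀ q φ‖ := by
    rw [norm_Gm, abs_of_pos hq0]
    positivity
  have h5 := hM (y := Gm κ φ₀ q φ) (by rw [dist_zero_right]; linarith)
    (norm_pos_iff.1 hnpos)
  calc |(f (Gm κ φ₀ q φ) / Gm κ φ₀ q φ ^ K * ((κ + Complex.I) * Gm κ φ₀ q φ)).re|
      ≤ ‖f (Gm κ φ₀ q φ) / Gm κ φ₀ q φ ^ K * ((κ + Complex.I) * Gm κ φ₀ q φ)‖ :=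
        Complex.abs_re_le_norm _
    _ = ‖f (Gm κ φ₀ q φ) / Gm κ φ₀ q φ ^ K‖ * (‖(κ : ℂ) + Complex.I‖ * ‖Gm κ φ₀ q φ‖) := by
        rw [norm_mul, norm_mul]
    _ ≤ (|M| + 1) * ((‖(κ : ℂ) + Complex.I‖ + 1) * (q * C)) := by
        refine mul_le_mul ?_ ?_ (by positivity) (by positivity)
        · linarith [le_abs_self M]
        · exact mul_le_mul (by linarith) hn (norm_nonneg _) (by positivity)
    _ = q * (D * C) := by rw [hD]; ring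
    _ < c := h2

theorem Gm_hasDeriv (κ φ₀ q φ : ℝ) :
    HasDerivAt (fun t : ℝ => Gm κ φ₀ q t) ((κ + Complex.I) * Gm κ φ₀ q φ) φ := by
  unfold Gm
  have h1 : HasDerivAt (fun t : ℝ => (t : ℂ)) 1 φ := Complex.ofRealCLM.hasDerivAt
  have h2 : HasDerivAt (fun t : ℝ => (κ : ℂ) * ((t : ℂ) - φ₀) + Complex.I * t)
      ((κ : ℂ) * 1 + Complex.I * 1) φ :=
    ((h1.sub_const _).const_mul _).add (h1.const_mul _)
  have h3 := (h2.cexp).const_mul (q : ℂ)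
  convert! h3 using 1
  ring

theorem Gm_contDiff (κ φ₀ q : ℝ) : ContDiff ℝ 2 (fun t : ℝ => Gm κ φ₀ q t) := by
  unfold Gm
  have h1 : ContDiff ℝ 2 (fun t : ℝ => (t : ℂ)) := Complex.ofRealCLM.contDiff
  exact contDiff_const.mul
    (((contDiff_const.mul (h1.sub contDiff_const)).add (contDiff_const.mul h1)).cexp)

/-- the slope of the branch `i` along the twisted circle -/
noncomputable def psi {r : ℕ} (K : ℕ) (b : Fin r → ℂ → ℂ) (κ φ₀ q : ℝ) (i : Fin r) (φ : ℝ) : ℝ :=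
  (b i (Gm κ φ₀ q φ) / Gm κ φ₀ q φ ^ K * ((κ + Complex.I) * Gm κ φ₀ q φ)).re

theorem step2 (hKAP : S_KAP) (hMONO : S_MONO) (hCURVE : S_CURVE)
    (r : ℕ) (R : ℝ) (K : ℕ) (U : ℂ → ℝ) (b : Fin r → ℂ → ℂ) (hR : 0 < R)
    (hb : ∀ i, DifferentiableOn ℂ (b i) (ball 0 R))
    (hD : Dat (ball 0 R \ {0}) U (fun i s => b i s / s ^ K))
    (hae : ∀ᵐ θ : ℝ, ∃ i, Good K (b i) ∧ ∃ ε : ℝ, 0 < ε ∧ ∀ x : ℝ, x ∈ Ioo 0 ε →
      Am θ x ∈ ball (0 : ℂ) R \ {0} ∧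
      HasFDerivAt U (gr (b i (Am θ x) / Am θ x ^ K)) (Am θ x)) (φ₀ : ℝ) :
    ∃ (κ δ ε : ℝ), 0 < δ ∧ 0 < ε ∧ ∀ q ∈ Ioo 0 ε, ∀ φ : ℝ, |φ - φ₀| < δ → ∀ j,
      HasFDerivAt U (gr (b j (Gm κ φ₀ q φ) / Gm κ φ₀ q φ ^ K)) (Gm κ φ₀ q φ) → Good K (b j) := by
  have hne : ∀ i j, i ≠ j → ∀ s ∈ ball (0 : ℂ) R \ {0}, b i s ≠ b j s := by
    intro i j hij s hs he
    apply hD.ne i j hij s hs
    show b i s / s ^ K = b j s / s ^ K
    rw [he]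
  obtain ⟨κ, δ, ε, hδ, hδ1, hε, hGm, hord, hbd⟩ := hKAP r R K b hR hb hne φ₀
  obtain ⟨θ₁, hθ₁, i₁, hg₁, ε₁, hε₁, hi₁⟩ :=
    exists_of_ae hae (a := φ₀ - δ) (b := φ₀ - δ / 2) (by linarith)
  obtain ⟨θ₂, hθ₂, i₂, hg₂, ε₂, hε₂, hi₂⟩ :=
    exists_of_ae hae (a := φ₀ + δ / 2) (b := φ₀ + 3 * δ / 4) (by linarith)
  -- the constants
  have hck : ∀ j : Fin r, ∀ᶠ q in 𝓝[>] (0 : ℝ), ¬ Good K (b j) →
      (∀ φ ∈ Icc (φ₀ - δ) (φ₀ + δ), psi K b κ φ₀ q i₂ φ < psi K b κ φ₀ q j φ) ∨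
      (∀ φ ∈ Icc (φ₀ - δ) (φ₀ + δ), psi K b κ φ₀ q j φ < psi K b κ φ₀ q i₁ φ) := by
    intro j
    rcases hbd j with h | ⟨c, hc, h⟩
    · exact Eventually.of_forall fun q h' => absurd h h'
    · filter_upwards [good_small K (b i₁) hg₁ κ φ₀ δ c hc, good_small K (b i₂) hg₂ κ φ₀ δ c hc,
        Ioo_mem_nhdsGT hε] with q h1 h2 hq _
      rcases h with h | h
      · left
        intro φ hφ
        exact (abs_lt.1 (h2 φ hφ)).2.trans_le (h q hq φ hφ)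
      · right
        intro φ hφ
        exact (h q hq φ hφ).trans_lt (abs_lt.1 (h1 φ hφ)).1
  have hck' := (eventually_all (ι := Fin r)).2 hck
  have hmeet1 := meet κ φ₀ θ₁ (δ / 12) ε₁ (by linarith) hε₁
  have hmeet2 := meet κ φ₀ θ₂ (δ / 12) ε₂ (by linarith) hε₂
  have hfin : ∀ᶠ q in 𝓝[>] (0 : ℝ), ∀ φ : ℝ, |φ - φ₀| < δ / 3 → ∀ j,
      HasFDerivAt U (gr (b j (Gm κ φ₀ q φ) / Gm κ φ₀ q φ ^ K)) (Gm κ φ₀ q φ) →
        Good K (b j) := by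
    filter_upwards [hck', hmeet1, hmeet2, Ioo_mem_nhdsGT hε] with q hc hm1 hm2 hq φ hφ j hj
    by_contra hbadj
    obtain ⟨φ₁, hφ₁, x₁, hx₁, he₁⟩ := hm1
    obtain ⟨φ₂, hφ₂, x₂, hx₂, he₂⟩ := hm2
    have hF1 := (hi₁ x₁ hx₁).2
    have hF2 := (hi₂ x₂ hx₂).2
    rw [← he₁] at hF1
    rw [← he₂] at hF2
    rw [abs_lt] at hφ
    have hder : ∀ (k : Fin r) (t : ℝ),
        HasFDerivAt U (gr (b k (Gm κ φ₀ q t) / Gm κ φ₀ q t ^ K)) (Gm κ φ₀ q t) →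
        HasDerivWithinAt (fun t => U (Gm κ φ₀ q t)) (psi K b κ φ₀ q k t) (Ioi t) t := by
      intro k t h
      have h1 := h.comp_hasDerivAt t (Gm_hasDeriv κ φ₀ q t)
      rw [gr_apply] at h1
      exact h1.hasDerivWithinAt
    have hW : ∀ t ∈ Ioo (φ₀ - δ) (φ₀ + δ), Gm κ φ₀ q t ∈ ball (0 : ℂ) R \ {0} :=
      fun t ht => hGm q hq t ⟨ht.1.le, ht.2.le⟩
    obtain ⟨hSC, hrd⟩ := hCURVE r _ U _ hD (fun t => Gm κ φ₀ q t) (φ₀ - δ) (φ₀ + δ)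
      (fun t ht => ⟨hW t ht, (Gm_contDiff κ φ₀ q).contDiffAt⟩)
    have hrd' : ∀ t ∈ Ioo (φ₀ - δ) (φ₀ + δ), ∃ i,
        HasDerivWithinAt (fun t => U (Gm κ φ₀ q t)) (psi K b κ φ₀ q i t) (Ioi t) t := by
      intro t ht
      obtain ⟨i, hi⟩ := hrd t ht
      rw [(Gm_hasDeriv κ φ₀ q t).deriv] at hi
      exact ⟨i, hi⟩
    have hcont : ∀ i, ContinuousOn (psi K b κ φ₀ q i) (Ioo (φ₀ - δ) (φ₀ + δ)) := by
      intro i
      have hGc : ContinuousOn (fun t : ℝ => Gm κ φ₀ q t) (Ioo (φ₀ - δ) (φ₀ + δ)) :=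
        (Gm_contDiff κ φ₀ q).continuous.continuousOn
      have hbc : ContinuousOn (fun t : ℝ => b i (Gm κ φ₀ q t)) (Ioo (φ₀ - δ) (φ₀ + δ)) :=
        (hb i).continuousOn.comp hGc (fun t ht => (hW t ht).1)
      have h1 : ContinuousOn (fun t : ℝ => b i (Gm κ φ₀ q t) / Gm κ φ₀ q t ^ K *
          ((κ + Complex.I) * Gm κ φ₀ q t)) (Ioo (φ₀ - δ) (φ₀ + δ)) := by
        refine (hbc.div (hGc.pow K) ?_).mul (continuousOn_const.mul hGc)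
        intro t ht
        exact pow_ne_zero _ (hW t ht).2
      exact Complex.continuous_re.comp_continuousOn h1
    have hSep : Sep (φ₀ - δ) (φ₀ + δ) (psi K b κ φ₀ q) := by
      intro i k
      by_cases hik : i = k
      · left
        intro t _
        rw [hik]
      · right
        rcases hord i k hik with h | h
        · left
          exact fun t ht => h q hq t ⟨ht.1.le, ht.2.le⟩
        · right
          exact fun t ht => h q hq t ⟨ht.1.le, ht.2.le⟩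
    have hM := hMONO r (φ₀ - δ) (φ₀ + δ) (fun t => U (Gm κ φ₀ q t)) (psi K b κ φ₀ q) hSC hcont
      hSep hrd'
    have hA : psi K b κ φ₀ q i₁ φ ≤ psi K b κ φ₀ q j φ :=
      hM φ₁ φ (by linarith [hφ₁.1, hθ₁.1]) (by linarith [hφ₁.2, hθ₁.2]) (by linarith) i₁ j
        (hder i₁ φ₁ hF1) (hder j φ hj)
    have hB : psi K b κ φ₀ q j φ₂ ≤ psi K b κ φ₀ q i₂ φ₂ :=
      hM φ φ₂ (by linarith) (by linarith [hφ₂.1, hθ₂.1]) (by linarith [hφ₂.2, hθ₂.2]) j i₂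
        (hder j φ hj) (hder i₂ φ₂ hF2)
    rcases hc j hbadj with h | h
    · have := h φ₂ ⟨by linarith [hφ₂.1, hθ₂.1], by linarith [hφ₂.2, hθ₂.2]⟩
      linarith
    · have := h φ ⟨by linarith, by linarith⟩
      linarith
  obtain ⟨u, hu, hsub⟩ := mem_nhdsGT_iff_exists_Ioo_subset.1 hfin
  exact ⟨κ, δ / 3, u, by linarith, hu, fun q hq => hsub hq⟩

theorem main : S_RAYIDX → S_FATOU → S_AEAM → S_KAP → S_MONO → S_CURVE → S_GOODL := by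
  intro h2 h3 h4 hKAP hMONO hCURVE r R K U b G hR hb hD hG hUG hT
  have hae := step1 h2 h3 h4 r R K U b G hR hb hD hG hUG hT
  have hloc : ∀ φ₀ ∈ Icc (-Real.pi) Real.pi, ∀ᶠ z : ℝ × ℝ in 𝓝 ((0 : ℝ), φ₀), 0 < z.1 → ∀ j,
      HasFDerivAt U (gr (b j ((z.1 : ℂ) * Complex.exp (Complex.I * z.2)) /
        ((z.1 : ℂ) * Complex.exp (Complex.I * z.2)) ^ K))
        ((z.1 : ℂ) * Complex.exp (Complex.I * z.2)) → Good K (b j) := by
    intro φ₀ _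
    obtain ⟨κ, δ, ε, hδ, hε, h⟩ := step2 hKAP hMONO hCURVE r R K U b hR hb hD hae φ₀
    have hCpos : 0 < Real.exp (|κ| * δ) := Real.exp_pos _
    have hpos : 0 < ε / Real.exp (|κ| * δ) := div_pos hε hCpos
    have hev : ∀ᶠ z : ℝ × ℝ in 𝓝 ((0 : ℝ), φ₀), z.1 < ε / Real.exp (|κ| * δ) ∧ |z.2 - φ₀| < δ := by
      have hy : ∀ᶠ y : ℝ in 𝓝 φ₀, |y - φ₀| < δ := by
        filter_upwards [ball_mem_nhds φ₀ hδ] with y hy
        rwa [mem_ball, Real.dist_eq] at hy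
      have hx : ∀ᶠ x : ℝ in 𝓝 (0 : ℝ), x < ε / Real.exp (|κ| * δ) := gt_mem_nhds hpos
      rw [nhds_prod_eq]
      exact hx.prod_mk hy
    filter_upwards [hev] with z hz hz0 j hj
    obtain ⟨hz1, hz2⟩ := hz
    have hq : z.1 * Real.exp (-(κ * (z.2 - φ₀))) ∈ Ioo 0 ε := by
      refine ⟨mul_pos hz0 (Real.exp_pos _), ?_⟩
      rw [lt_div_iff₀ hCpos] at hz1
      refine lt_of_le_of_lt (mul_le_mul_of_nonneg_left ?_ hz0.le) hz1
      rw [Real.exp_le_exp]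
      calc -(κ * (z.2 - φ₀)) ≤ |κ * (z.2 - φ₀)| := neg_le_abs _
        _ = |κ| * |z.2 - φ₀| := abs_mul _ _
        _ ≤ |κ| * δ := mul_le_mul_of_nonneg_left hz2.le (abs_nonneg _)
    have heq : Gm κ φ₀ (z.1 * Real.exp (-(κ * (z.2 - φ₀)))) z.2 =
        (z.1 : ℂ) * Complex.exp (Complex.I * z.2) := by
      unfold Gm
      push_cast
      rw [mul_assoc, ← Complex.exp_add]
      congr 2
      ring
    have h5 := h _ hq z.2 hz2 j
    rw [heq] at h5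
    exact h5 hj
  have hall := isCompact_Icc.eventually_forall_of_forall_eventually
    (P := fun (x φ : ℝ) => 0 < x → ∀ j,
      HasFDerivAt U (gr (b j ((x : ℂ) * Complex.exp (Complex.I * (φ : ℝ))) /
        ((x : ℂ) * Complex.exp (Complex.I * (φ : ℝ))) ^ K))
        ((x : ℂ) * Complex.exp (Complex.I * (φ : ℝ))) → Good K (b j)) hloc
  rw [Metric.eventually_nhds_iff] at hall
  obtain ⟨ρ, hρ, hall⟩ := hall
  refine ⟨ρ, hρ, fun s hs0 hs j hj => ?_⟩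
  have h6 := hall (y := ‖s‖) (by rw [dist_zero_right, Real.norm_eq_abs, abs_of_pos hs0]; exact hs)
    (Complex.arg s) ⟨(Complex.neg_pi_lt_arg s).le, Complex.arg_le_pi s⟩ hs0 j
  have h7 : (‖s‖ : ℂ) * Complex.exp (Complex.I * (Complex.arg s : ℝ)) = s := by
    rw [mul_comm Complex.I]
    exact Complex.norm_mul_exp_arg_mul_I s
  rw [h7] at h6
  exact h6 hj

end Pool.Agent.W753.CQ.GOODL
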